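import Pool.Agent.K6.H47.TC.Stm

/-!
# The reduced power `M ^ ℕ / M ^ (ℕ)`

It solves all countable systems which are finitely solvable, and `M` is a pure submodule.
-/

set_option autoImplicit false

universe u

namespace Pool.Agent.K6.H47.TC

open Pool.Agent.K6.H47.TL

namespace RP

variable (R : Type u) [Ring R] (M : Type u) [AddCommGroup M] [Module R M]

/-- sequences which are eventually zero -/
def W : Submodule R (ℕ → M) where
  carrier := {v | ∃ N : ℕ, ∀ n, N ≤ n → v n = 0}
  add_mem' := by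
    rintro v w ⟨N, hN⟩ ⟨N', hN'⟩
    refine ⟨max N N', fun n hn => ?_⟩
    rw [Pi.add_apply, hN n (le_trans (le_max_left _ _) hn),
      hN' n (le_trans (le_max_right _ _) hn), add_zero]
  zero_mem' := ⟨0, fun _ _ => rfl⟩
  smul_mem' := by
    rintro c v ⟨N, hN⟩
    exact ⟨N, fun n hn => by rw [Pi.smul_apply, hN n hn, smul_zero]⟩

/-- the reduced power -/
abbrev B : Type u := (ℕ → M) ⧸ W R M

/-- the diagonal map -/
def j : M →ₗ[R] B R M := (W R M).mkQ ∘ₗ LinearMap.pi fun _ => LinearMap.id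

theorem mk_eq {v w : ℕ → M} : (W R M).mkQ v = (W R M).mkQ w ↔ ∃ N : ℕ, ∀ n, N ≤ n → v n = w n := by
  rw [Submodule.mkQ_apply, Submodule.mkQ_apply, Submodule.Quotient.eq]
  constructor
  · rintro ⟨N, hN⟩
    exact ⟨N, fun n hn => sub_eq_zero.1 (hN n hn)⟩
  · rintro ⟨N, hN⟩
    exact ⟨N, fun n hn => sub_eq_zero.2 (hN n hn)⟩

theorem lc_mk (V : ℕ → ℕ → M) (x : ℕ →₀ R) :
    Finsupp.linearCombination R (fun s => (W R M).mkQ (V s)) x =
      (W R M).mkQ (fun n => Finsupp.linearCombination R (fun s => V s n) x) := by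
  have h1 := Finsupp.apply_linearCombination R (W R M).mkQ V x
  have h2 : (fun s => (W R M).mkQ (V s)) = (W R M).mkQ ∘ V := rfl
  rw [h2, ← h1]
  congr 1
  funext n
  exact Finsupp.apply_linearCombination R (LinearMap.proj n : (ℕ → M) →ₗ[R] M) V x

variable {R M}

theorem solv {a : ℕ → (ℕ →₀ R)} (h : FSolv a M) : Solv a (B R M) := by
  intro v
  choose H hH using fun t => (W R M).mkQ_surjective (v t)
  choose G hG using fun n => h (Finset.range n) fun t => H t n
  refine ⟨fun s => (W R M).mkQ fun n => G n s, fun t => ?_⟩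
  rw [lc_mk R M (fun s n => G n s), ← hH t, mk_eq]
  exact ⟨t + 1, fun n hn => hG n t (Finset.mem_range.2 hn)⟩

theorem transfer (a : ℕ → (ℕ →₀ R)) (k l : ℕ) (v : ℕ → B R M) (g : ℕ → M)
    (hk : ∀ s < k, v s = j R M (g s))
    (hl : ∀ t < l, Finsupp.linearCombination R v (a t) = 0) :
    ∃ v' : ℕ → M, (∀ s < k, v' s = g s) ∧ ∀ t < l, Finsupp.linearCombination R v' (a t) = 0 := by
  choose V hV using fun s => (W R M).mkQ_surjective (v s)
  have h1 : ∀ s, s < k → ∃ N : ℕ, ∀ n, N ≤ n → V s n = g s := by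
    intro s hs
    have h2 : (W R M).mkQ (V s) = (W R M).mkQ (fun _ => g s) := by
      rw [hV s, hk s hs]
      rfl
    exact (mk_eq R M).1 h2
  have h3 : ∀ t, t < l → ∃ N : ℕ, ∀ n, N ≤ n →
      Finsupp.linearCombination R (fun s => V s n) (a t) = 0 := by
    intro t ht
    have h4 : (W R M).mkQ (fun n => Finsupp.linearCombination R (fun s => V s n) (a t)) =
        (W R M).mkQ 0 := by
      rw [← lc_mk R M V, map_zero]
      have h5 : (fun s => (W R M).mkQ (V s)) = v := funext hV
      rw [h5, hl t ht]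
    exact (mk_eq R M).1 h4
  choose! N1 hN1 using h1
  choose! N2 hN2 using h3
  let n : ℕ := (Finset.range k).sup N1 + (Finset.range l).sup N2
  refine ⟨fun s => V s n, fun s hs => hN1 s hs n ?_, fun t ht => hN2 t ht n ?_⟩
  · exact le_trans (Finset.le_sup (f := N1) (Finset.mem_range.2 hs)) (Nat.le_add_right _ _)
  · exact le_trans (Finset.le_sup (f := N2) (Finset.mem_range.2 ht)) (Nat.le_add_left _ _)

end RP

end Pool.Agent.K6.H47.TC
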