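import Pool.Agent.K6.H47.TC.Stm
import Pool.Agent.K6.H47.TC.RP
import Pool.Agent.K6.H47.TL.Final

/-!
# Direct sums of countably presented modules: assembly
-/

set_option autoImplicit false

universe u

namespace Pool.Agent.K6.H47.TC

open Pool.Agent.K6.H47.TL

/-- `M` is countably presented: generated by a sequence with a sequence of relations -/
def CountPres (R : Type u) [Ring R] (M : Type u) [AddCommGroup M] [Module R M] : Prop :=
  ∃ (f : (ℕ →₀ R) →ₗ[R] M) (a : ℕ → (ℕ →₀ R)), Function.Surjective f ∧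
    LinearMap.ker f = Submodule.span R (Set.range a)

section

variable {R : Type u} [Ring R]

theorem solv_iso {J S : Type*} {A : J → (S →₀ R)} {M M' : Type u} [AddCommGroup M] [Module R M]
    [AddCommGroup M'] [Module R M'] (e : M ≃ₗ[R] M') (h : Solv A M) : Solv A M' := by
  intro v
  obtain ⟨g, hg⟩ := h fun t => e.symm (v t)
  refine ⟨fun s => e (g s), fun t => ?_⟩
  have h1 := Finsupp.apply_linearCombination R e.toLinearMap g (A t)
  have h2 : Finsupp.linearCombination R (fun s => e (g s)) (A t) =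
      e (Finsupp.linearCombination R g (A t)) := h1.symm
  rw [h2, hg]
  simp

theorem lc_add {S M : Type*} [AddCommGroup M] [Module R M] (g g' : S → M) (x : S →₀ R) :
    Finsupp.linearCombination R (fun s => g s + g' s) x =
      Finsupp.linearCombination R g x + Finsupp.linearCombination R g' x := by
  simp only [Finsupp.linearCombination_apply, Finsupp.sum, smul_add, Finset.sum_add_distrib]

theorem lc_comp {S : Type*} {M M' : Type u} [AddCommGroup M] [Module R M]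
    [AddCommGroup M'] [Module R M'] (φ : M →ₗ[R] M') (g : S → M) (x : S →₀ R) :
    Finsupp.linearCombination R (fun s => φ (g s)) x = φ (Finsupp.linearCombination R g x) :=
  (Finsupp.apply_linearCombination R φ g x).symm

/-- finite systems suffice -/
theorem ext_of_fsolv (hML : S_ML.{u}) (hLS : S_LS.{u}) (hGEN : S_GEN.{u}) {I : Type u}
    (a : I → ℕ → (ℕ →₀ R)) {T : Type u} [AddCommGroup T] [Module R T] (hT : Tilting R 1 T)
    (hx : ∀ (X : Type u) [AddCommGroup X] [Module R X], ExtZ R 0 T X ↔ ∀ i, Solv (a i) X)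
    (M : Type u) [AddCommGroup M] [Module R M] (hM : ∀ i, FSolv (a i) M) : ExtZ R 0 T M := by
  have hB : ExtZ R 0 T (RP.B R M) := (hx _).2 fun i => RP.solv (hM i)
  have hBN : ∀ i, Solv (a i) (ℕ →₀ RP.B R M) := (hx _).1 ((hGEN R T hT).2 _ hB)
  have hMLB : ∀ i, ML (a i) (RP.B R M) := fun i => hML R (a i) _ (hBN i)
  have hMLM : ∀ i, ML (a i) M := by
    intro i k
    obtain ⟨m, hm⟩ := hMLB i k
    refine ⟨m, fun l g hg => ?_⟩
    obtain ⟨v, hv1, hv2⟩ := hm l (fun s => RP.j R M (g s)) fun t ht => by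
      rw [lc_comp, hg t ht, map_zero]
    obtain ⟨v', hv3, hv4⟩ := RP.transfer (a i) k l v g hv2 hv1
    exact ⟨v', hv4, hv3⟩
  exact (hx M).2 fun i => hLS R (a i) M (hM i) (hMLM i)

end

/-- the cells -/
theorem cells (hML : S_ML.{u}) (hLS : S_LS.{u}) (hGEN : S_GEN.{u}) (hCLS : S_CLS.{u})
    (R : Type u) [Ring R] (T : Type u) [AddCommGroup T] [Module R T] (hT : Tilting R 1 T)
    (I : Type u) (a : I → ℕ → (ℕ →₀ R)) (ha : ∀ i, LinearIndependent R (a i))
    (hx : ∀ (X : Type u) [AddCommGroup X] [Module R X], ExtZ R 0 T X ↔ ∀ i, Solv (a i) X) :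
    ∃ 𝒞 : Set (Cell R), (∀ c ∈ 𝒞, Module.FinitePresentation R c.K) ∧
      ∀ (M : Type u) [AddCommGroup M] [Module R M], (∀ i, ExtZ R i T M) ↔ CE 𝒞 M := by
  obtain ⟨𝒞, hfp, hCE⟩ := hCLS R I a ha
  refine ⟨𝒞, hfp, fun M _ _ => ?_⟩
  rw [hCE M]
  constructor
  · intro h i F v
    obtain ⟨g, hg⟩ := (hx M).1 (h 0) i v
    exact ⟨g, fun t _ => hg t⟩
  · intro h i
    cases i with
    | zero => exact ext_of_fsolv hML hLS hGEN a hT hx M h
    | succ i => exact (hGEN R T hT).1 i M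

/-- `Ext^1` of a direct sum of countably presented modules -/
theorem ext_sum (hSYS : S_SYS.{u}) (hBLK : S_BLK.{u}) (hSUM : S_SUM.{u}) {R : Type u} [Ring R]
    {I : Type u} {U : I → Type u} [∀ i, AddCommGroup (U i)] [∀ i, Module R (U i)]
    {a : I → ℕ → (ℕ →₀ R)} (ha : ∀ i, LinearIndependent R (a i))
    (hU : ∀ i, Nonempty (U i ≃ₗ[R] ((ℕ →₀ R) ⧸ Submodule.span R (Set.range (a i)))))
    {T : Type u} [AddCommGroup T] [Module R T] (e : T ≃ₗ[R] (Π₀ i, U i))
    (X : Type u) [AddCommGroup X] [Module R X] : ExtZ R 0 T X ↔ ∀ i, Solv (a i) X := by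
  obtain ⟨e'⟩ := hSUM R I U a hU
  rw [← ((hBLK R I a).2 X).1, ← hSYS R _ _ (blk a) ((hBLK R I a).1 ha) X]
  exact ⟨EX0.iso X 0 _ _ (e.trans e'), EX0.iso X 0 _ _ (e.trans e').symm⟩

/-- `Ext^1` of a countably presented module -/
theorem ext_one (hSYS : S_SYS.{u}) (hBLK : S_BLK.{u}) (hSUM : S_SUM.{u}) {R : Type u} [Ring R]
    {U : Type u} [AddCommGroup U] [Module R U] {a : ℕ → (ℕ →₀ R)} (ha : LinearIndependent R a)
    (hU : Nonempty (U ≃ₗ[R] ((ℕ →₀ R) ⧸ Submodule.span R (Set.range a))))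
    (X : Type u) [AddCommGroup X] [Module R X] : ExtZ R 0 U X ↔ Solv a X := by
  classical
  have e : U ≃ₗ[R] (Π₀ _ : PUnit.{u+1}, U) :=
    LinearEquiv.ofLinear (DFinsupp.lsingle (R := R) (M := fun _ : PUnit.{u+1} => U) PUnit.unit)
      (DFinsupp.lapply (R := R) (M := fun _ : PUnit.{u+1} => U) PUnit.unit)
      (by
        apply LinearMap.ext
        intro x
        apply DFinsupp.ext
        rintro ⟨⟩
        simp)
      (by
        apply LinearMap.ext
        intro x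
        simp)
  rw [ext_sum hSYS hBLK hSUM (I := PUnit.{u+1}) (U := fun _ => U) (a := fun _ => a)
    (fun _ => ha) (fun _ => hU) e X]
  exact ⟨fun h => h PUnit.unit, fun h _ => h⟩

/-- presentations of countably presented modules -/
theorem pres (hPDK : S_PDK.{u}) (hPRE : S_PRE.{u}) (R : Type u) [Ring R]
    (T : Type u) [AddCommGroup T] [Module R T] (hT : PdLE R 1 T) (U : Type u)
    [AddCommGroup U] [Module R U] (hU : CountPres R U) (hadd : AddT R T U) :
    ∃ a : ℕ → (ℕ →₀ R), LinearIndependent R a ∧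
      Nonempty (U ≃ₗ[R] ((ℕ →₀ R) ⧸ Submodule.span R (Set.range a))) := by
  obtain ⟨f, a, hf, hk⟩ := hU
  exact hPRE R U f hf ⟨a, hk⟩ (hPDK R T _ U f hT hadd hf)

/-- the summands of `T` -/
theorem addT_summand {R : Type u} [Ring R]
    {T : Type u} [AddCommGroup T] [Module R T] {I : Type u} {U : I → Type u}
    [∀ i, AddCommGroup (U i)] [∀ i, Module R (U i)] (e : T ≃ₗ[R] (Π₀ i, U i)) (i : I) :
    AddT R T (U i) := by
  classical
  refine ⟨PUnit.{u+1}, Finsupp.lsingle PUnit.unit ∘ₗ e.symm.toLinearMap ∘ₗ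
    DFinsupp.lsingle i, DFinsupp.lapply i ∘ₗ e.toLinearMap ∘ₗ
    Finsupp.lapply PUnit.unit, ?_⟩
  ext x
  simp

/-- the cells of a `1`-tilting module which is a direct sum of countably presented modules -/
theorem cells_sum (hML : S_ML.{u}) (hLS : S_LS.{u}) (hSYS : S_SYS.{u})
    (hGEN : S_GEN.{u}) (hBLK : S_BLK.{u}) (hPDK : S_PDK.{u}) (hPRE : S_PRE.{u})
    (hSUM : S_SUM.{u}) (hCLS : S_CLS.{u}) (R : Type u) [Ring R]
    (T : Type u) [AddCommGroup T] [Module R T] (hT : Tilting R 1 T) (I : Type u) (U : I → Type u)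
    [∀ i, AddCommGroup (U i)] [∀ i, Module R (U i)] (hU : ∀ i, CountPres R (U i))
    (e : T ≃ₗ[R] (Π₀ i, U i)) : ∃ 𝒞 : Set (Cell R), (∀ c ∈ 𝒞, Module.FinitePresentation R c.K) ∧
      ∀ (M : Type u) [AddCommGroup M] [Module R M], (∀ i, ExtZ R i T M) ↔ CE 𝒞 M := by
  choose a ha hU' using fun i => pres hPDK hPRE R T hT.pd (U i) (hU i) (addT_summand e i)
  exact cells hML hLS hGEN hCLS R T hT I a ha
    (fun X _ _ => ext_sum hSYS hBLK hSUM ha hU' e X)

/-- `T` is of countable type: `T^⊥` is the class orthogonal to a family of countably presented modules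
of projective dimension at most `1` (for `1`-tilting modules) -/
def CountType (R : Type u) [Ring R] (T : Type u) [AddCommGroup T] [Module R T] : Prop :=
  ∃ (I : Type u) (U : I → Type u) (_ : ∀ i, AddCommGroup (U i)) (_ : ∀ i, Module R (U i)),
    (∀ i, CountPres R (U i) ∧ PdLE R 1 (U i)) ∧
    ∀ (M : Type u) [AddCommGroup M] [Module R M], ExtZ R 0 T M ↔ ∀ i, ExtZ R 0 (U i) M

/-- the cells of a `1`-tilting module of countable type -/
theorem cells_type (hML : S_ML.{u}) (hLS : S_LS.{u}) (hSYS : S_SYS.{u})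
    (hGEN : S_GEN.{u}) (hBLK : S_BLK.{u}) (hPDK : S_PDK.{u}) (hPRE : S_PRE.{u})
    (hSUM : S_SUM.{u}) (hCLS : S_CLS.{u}) (R : Type u) [Ring R]
    (T : Type u) [AddCommGroup T] [Module R T] (hT : Tilting R 1 T) (h : CountType R T) :
    ∃ 𝒞 : Set (Cell R), (∀ c ∈ 𝒞, Module.FinitePresentation R c.K) ∧
      ∀ (M : Type u) [AddCommGroup M] [Module R M], (∀ i, ExtZ R i T M) ↔ CE 𝒞 M := by
  obtain ⟨I, U, i1, i2, hU, hT'⟩ := h
  have hself : ∀ i, AddT R (U i) (U i) := fun i =>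
    ⟨PUnit.{u+1}, Finsupp.lsingle PUnit.unit, Finsupp.lapply PUnit.unit, by ext x; simp⟩
  choose a ha hU' using fun i => pres hPDK hPRE R (U i) (hU i).2 (U i) (hU i).1 (hself i)
  refine cells hML hLS hGEN hCLS R T hT I a ha fun X _ _ => ?_
  rw [hT' X]
  exact forall_congr' fun i => ext_one hSYS hBLK hSUM (ha i) (hU' i) X

/-- as `final`, from the cells -/
theorem final' (R : Type u) [Ring R] (n : ℕ) (T : Type u) [AddCommGroup T] [Module R T]
    (hT : Tilting R n T) (𝒞 : Set (Cell R)) (hfp : ∀ c ∈ 𝒞, Module.FinitePresentation R c.K)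
    (hCE : ∀ (M : Type u) [AddCommGroup M] [Module R M], (∀ i, ExtZ R i T M) ↔ CE 𝒞 M)
    (X N : Type u) [AddCommGroup N] [Module R N]
    (g : (X →₀ T) →ₗ[R] N) (hg : Function.Surjective g)
    (hp : ∀ (F : Type u) [AddCommGroup F] [Module R F] [Module.FinitePresentation R F]
      (f : F →ₗ[R] N), ∃ f' : F →ₗ[R] (X →₀ T), g ∘ₗ f' = f) :
    ∃ (ι : Type u) (_ : Preorder ι) (_ : IsDirectedOrder ι) (_ : Nonempty ι) (_ : DecidableEq ι)
      (G : ι → Type u) (_ : ∀ i, AddCommGroup (G i)) (_ : ∀ i, Module R (G i))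
      (f : ∀ i j, i ≤ j → G i →ₗ[R] G j) (_ : DirectedSystem G fun i j h => f i j h),
      (∀ i, AddT R T (G i)) ∧ Nonempty (Module.DirectLimit G f ≃ₗ[R] N) := by
  obtain ⟨hLP, hADD⟩ := t_ADD t_EX0 (t_EXS t_EX0) (t_EXF t_EX0) (t_EXA t_EX0) R T n hT 𝒞 hCE
  have h1 : CE 𝒞 T := by
    have h2 : CE 𝒞 (PUnit.{u+1} →₀ T) := (hCE _).1 fun i => hT.ext i _
    intro c hc v
    obtain ⟨p, hp'⟩ := h2 c hc (Finsupp.lsingle PUnit.unit ∘ₗ v)
    refine ⟨Finsupp.lapply PUnit.unit ∘ₗ p, ?_⟩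
    rw [LinearMap.comp_assoc, hp']
    ext x
    simp
  have h3 : LL 𝒞 T := Asm.llT ex_all h1 hLP
  obtain ⟨h4, h5⟩ := t_LLT R 𝒞 hfp T h1 h3 X N g hg hp
  obtain ⟨ι, i1, i2, i3, i4, G, i5, i6, f, i7, h6, h7⟩ :=
    Asm.main ex_all t_KIL (t_POS t_KIL) h4 h5
  exact ⟨ι, i1, i2, i3, i4, G, i5, i6, f, i7, fun i => hADD (G i) (h6 i).1 (h6 i).2, h7⟩

end Pool.Agent.K6.H47.TC
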