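import Pool.Agent.K6.H47.TC.Stm

/-!
# `S_BLK`: systems with a block diagonal matrix (written by helper58)
-/

set_option autoImplicit false

universe u

namespace Pool.Agent.K6.H47.TC

open Pool.Agent.K6.H47.TL

namespace BLK

variable {R : Type u} [Ring R] {I : Type u}

theorem inj (i : I) : Function.Injective (fun s : ℕ => ((i, s) : I × ℕ)) := by
  intro s t h
  exact (Prod.mk.inj h).2

/-- the component of index `i` -/
noncomputable def pr (i : I) : (I × ℕ →₀ R) →ₗ[R] (ℕ →₀ R) :=
  Finsupp.lcomapDomain (fun s : ℕ => ((i, s) : I × ℕ)) (inj i)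

theorem pr_apply (i : I) (f : I × ℕ →₀ R) (s : ℕ) : pr i f s = f (i, s) := by
  simp [pr, Finsupp.lcomapDomain]

theorem pr_blk_same (a : I → ℕ → (ℕ →₀ R)) (i : I) (t : ℕ) : pr i (blk a (i, t)) = a i t := by
  ext s
  rw [pr_apply]
  unfold blk
  exact Finsupp.mapDomain_apply (inj i) _ s

theorem pr_blk_ne (a : I → ℕ → (ℕ →₀ R)) (i i' : I) (h : i' ≠ i) (t : ℕ) :
    pr i (blk a (i', t)) = 0 := by
  ext s
  rw [pr_apply]
  unfold blk
  rw [Finsupp.mapDomain_of_notMem_range]
  · rfl
  · rintro ⟨s', hs'⟩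
    exact h (Prod.mk.inj hs').1

theorem pr_single_same (i : I) (t : ℕ) (r : R) :
    pr i (Finsupp.single (i, t) r) = Finsupp.single t r := by
  ext s
  rw [pr_apply]
  by_cases h : t = s
  · subst h; simp
  · rw [Finsupp.single_eq_of_ne, Finsupp.single_eq_of_ne]
    · exact fun h' => h h'.symm
    · exact fun h' => h (Prod.mk.inj h').2.symm

theorem pr_single_ne (i i' : I) (h : i' ≠ i) (t : ℕ) (r : R) :
    pr i (Finsupp.single (i', t) r) = 0 := by
  ext s
  rw [pr_apply, Finsupp.single_eq_of_ne]
  · rfl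
  · exact fun h' => h (Prod.mk.inj h').1.symm

theorem pr_lc (a : I → ℕ → (ℕ →₀ R)) (i : I) (l : I × ℕ →₀ R) :
    pr i (Finsupp.linearCombination R (blk a) l) =
      Finsupp.linearCombination R (a i) (pr i l) := by
  have h : (pr i).comp (Finsupp.linearCombination R (blk a)) =
      (Finsupp.linearCombination R (a i)).comp (pr i) := by
    refine Finsupp.lhom_ext fun x r => ?_
    obtain ⟨i', t⟩ := x
    rw [LinearMap.comp_apply, LinearMap.comp_apply, Finsupp.linearCombination_single, map_smul]
    by_cases hi : i' = i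
    · subst hi
      rw [pr_blk_same, pr_single_same, Finsupp.linearCombination_single]
    · rw [pr_blk_ne a i i' hi, pr_single_ne i i' hi, smul_zero, map_zero]
  exact LinearMap.congr_fun h l

theorem lc_blk (a : I → ℕ → (ℕ →₀ R)) {M : Type u} [AddCommGroup M] [Module R M]
    (g : I × ℕ → M) (i : I) (t : ℕ) :
    Finsupp.linearCombination R g (blk a (i, t)) =
      Finsupp.linearCombination R (fun s => g (i, s)) (a i t) := by
  unfold blk
  rw [Finsupp.linearCombination_mapDomain]
  rfl

end BLK

open BLK in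
theorem t_BLK : S_BLK.{u} := by
  intro R _ I a
  refine ⟨?_, ?_⟩
  · intro h
    rw [linearIndependent_iff]
    intro l hl
    ext ⟨i, t⟩
    have h1 := pr_lc a i l
    rw [hl, map_zero] at h1
    have h2 := (linearIndependent_iff.1 (h i)) _ h1.symm
    have h3 := DFunLike.congr_fun h2 t
    rw [pr_apply] at h3
    exact h3
  · intro M _ _
    classical
    refine ⟨⟨?_, ?_⟩, ⟨?_, ?_⟩⟩
    · intro h i hh
      obtain ⟨g, hg⟩ := h (fun x => hh x.2)
      refine ⟨fun s => g (i, s), fun t => ?_⟩
      rw [← lc_blk]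
      exact hg (i, t)
    · intro h hh
      choose g hg using fun i => h i (fun t => hh (i, t))
      refine ⟨fun x => g x.1 x.2, fun x => ?_⟩
      obtain ⟨i, t⟩ := x
      rw [lc_blk]
      exact hg i t
    · intro h i F hh
      obtain ⟨g, hg⟩ := h (F.image fun t => ((i, t) : I × ℕ)) (fun x => hh x.2)
      refine ⟨fun s => g (i, s), fun t ht => ?_⟩
      rw [← lc_blk]
      exact hg (i, t) (Finset.mem_image_of_mem (fun t => ((i, t) : I × ℕ)) ht)
    · intro h F hh
      choose g hg using fun i => h i (F.image Prod.snd) (fun t => hh (i, t))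
      refine ⟨fun x => g x.1 x.2, fun x hx => ?_⟩
      obtain ⟨i, t⟩ := x
      rw [lc_blk]
      exact hg i t (Finset.mem_image_of_mem Prod.snd hx)

end Pool.Agent.K6.H47.TC
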