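import Pool.Agent.K6.H47.TC.Stm

/-!
# Piece CLS: the cells of row-finite systems (helper21, for helper47)
-/

set_option autoImplicit false

universe u

namespace Pool.Agent.K6.H47.TC

open Pool.Agent.K6.H47.TL

namespace CLS

variable {R : Type u} [Ring R]

/-- restriction to the first `k` coordinates -/
def res (R : Type u) [Ring R] (k : ℕ) : (ℕ →₀ R) →ₗ[R] (Fin k → R) where
  toFun y := fun s => y s
  map_add' _ _ := rfl
  map_smul' _ _ := rfl

/-- the map in the other direction -/
noncomputable def emb (R : Type u) [Ring R] (k : ℕ) : (Fin k → R) →ₗ[R] (ℕ →₀ R) where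
  toFun x := ∑ s : Fin k, Finsupp.single (s : ℕ) (x s)
  map_add' x y := by
    simp only [Pi.add_apply, Finsupp.single_add, Finset.sum_add_distrib]
  map_smul' c x := by
    simp only [Pi.smul_apply, RingHom.id_apply, Finset.smul_sum, Finsupp.smul_single]

lemma sum_eq {N : Type*} [AddCommMonoid N] (k : ℕ) (y : ℕ →₀ R) (hy : ∀ s, k ≤ s → y s = 0)
    (F : ℕ → R → N) (hF : ∀ s, F s 0 = 0) : y.sum F = ∑ s : Fin k, F s (y s) := by
  rw [Fin.sum_univ_eq_sum_range (fun s => F s (y s)) k]
  apply Finsupp.sum_of_support_subset _ _ _ (fun s _ => hF s)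
  intro s hs
  rw [Finset.mem_range]
  by_contra h
  exact (Finsupp.mem_support_iff.1 hs) (hy s (not_lt.1 h))

lemma emb_res (k : ℕ) (y : ℕ →₀ R) (hy : ∀ s, k ≤ s → y s = 0) : emb R k (res R k y) = y := by
  have h := sum_eq k y hy (fun s c => Finsupp.single s c) (fun s => Finsupp.single_zero s)
  rw [Finsupp.sum_single] at h
  exact h.symm

/-- the generators of the cell -/
noncomputable def gen (a : ℕ → (ℕ →₀ R)) (n k : ℕ) (j : Fin n) : Fin k → R := res R k (a j)

lemma gen_li {a : ℕ → (ℕ →₀ R)} (ha : LinearIndependent R a) {n k : ℕ}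
    (hs : ∀ j < n, ∀ s, k ≤ s → a j s = 0) : LinearIndependent R (gen a n k) := by
  apply LinearIndependent.of_comp (emb R k)
  have h : (emb R k) ∘ gen a n k = a ∘ (fun j : Fin n => (j : ℕ)) := by
    funext j
    exact emb_res k (a j) (hs j j.2)
  rw [h]
  exact ha.comp _ Fin.val_injective

/-- the submodule of the cell -/
abbrev sp (a : ℕ → (ℕ →₀ R)) (n k : ℕ) : Submodule R (Fin k → R) :=
  Submodule.span R (Set.range (gen a n k))

/-- the cell -/
noncomputable def cell (a : ℕ → (ℕ →₀ R)) (n k : ℕ) : Cell R where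
  k := k
  K := Submodule.span R (Set.range (gen a n k))
  fg := Submodule.fg_span (Set.finite_range _)

variable {M : Type u} [AddCommGroup M] [Module R M]

/-- the combination map -/
noncomputable def lcm (k : ℕ) (g : ℕ → M) : (Fin k → R) →ₗ[R] M where
  toFun x := ∑ s : Fin k, x s • g s
  map_add' x y := by
    simp only [Pi.add_apply, add_smul, Finset.sum_add_distrib]
  map_smul' c x := by
    simp only [Pi.smul_apply, RingHom.id_apply, Finset.smul_sum, smul_eq_mul, mul_smul]

lemma lcm_res (k : ℕ) (g : ℕ → M) (y : ℕ →₀ R) (hy : ∀ s, k ≤ s → y s = 0) :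
    lcm k g (res R k y) = Finsupp.linearCombination R g y := by
  rw [Finsupp.linearCombination_apply]
  exact (sum_eq k y hy (fun s c => c • g s) (fun s => zero_smul R (g s))).symm

/-- from cells to systems -/
lemma to_solv {a : ℕ → (ℕ →₀ R)} (ha : LinearIndependent R a) {n k : ℕ}
    (hs : ∀ j < n, ∀ s, k ≤ s → a j s = 0)
    (hc : ∀ v : (sp a n k) →ₗ[R] M, ∃ p : (Fin k → R) →ₗ[R] M,
      p ∘ₗ (sp a n k).subtype = v) (h : ℕ → M) :
    ∃ g : ℕ → M, ∀ t < n, Finsupp.linearCombination R g (a t) = h t := by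
  have hli := gen_li ha hs
  let v : (sp a n k) →ₗ[R] M :=
    (Finsupp.linearCombination R (fun j : Fin n => h j)) ∘ₗ hli.repr
  obtain ⟨p', hp⟩ := hc v
  let g : ℕ → M := fun s => if hs : s < k then p' (Pi.single ⟨s, hs⟩ 1) else 0
  have hg : ∀ x : Fin k → R, lcm k g x = p' x := by
    intro x
    have h1 : x = ∑ s : Fin k, x s • (Pi.single s 1 : Fin k → R) := by
      funext s
      simp [Finset.sum_apply, Pi.single_apply]
    conv_rhs => rw [h1]
    rw [map_sum]
    change ∑ s : Fin k, x s • g s = _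
    apply Finset.sum_congr rfl
    intro s _
    rw [map_smul]
    congr 1
    exact dif_pos s.2
  refine ⟨g, fun t ht => ?_⟩
  rw [← lcm_res k g (a t) (hs t ht), hg]
  have hmem : gen a n k ⟨t, ht⟩ ∈ sp a n k := Submodule.subset_span ⟨⟨t, ht⟩, rfl⟩
  have h2 := LinearMap.congr_fun hp ⟨gen a n k ⟨t, ht⟩, hmem⟩
  have h3 : v ⟨gen a n k ⟨t, ht⟩, hmem⟩ = h t := by
    have h4 := hli.repr_eq_single ⟨t, ht⟩ ⟨gen a n k ⟨t, ht⟩, hmem⟩ rfl
    change Finsupp.linearCombination R (fun j : Fin n => h j) (hli.repr _) = h t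
    rw [h4, Finsupp.linearCombination_single, one_smul]
  rw [h3] at h2
  exact h2

/-- from systems to cells -/
lemma to_cell {a : ℕ → (ℕ →₀ R)} {n k : ℕ} (hs : ∀ j < n, ∀ s, k ≤ s → a j s = 0)
    (hf : FSolv a M) (v : (sp a n k) →ₗ[R] M) :
    ∃ p : (Fin k → R) →ₗ[R] M, p ∘ₗ (sp a n k).subtype = v := by
  have hmem : ∀ j : Fin n, gen a n k j ∈ sp a n k := fun j => Submodule.subset_span ⟨j, rfl⟩
  let h : ℕ → M := fun t => if ht : t < n then v ⟨gen a n k ⟨t, ht⟩, hmem _⟩ else 0
  obtain ⟨g, hg⟩ := hf (Finset.range n) h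
  refine ⟨lcm k g, ?_⟩
  have key : ∀ x (hx : x ∈ Submodule.span R (Set.range (gen a n k))), lcm k g x = v ⟨x, hx⟩ := by
    intro x hx
    induction hx using Submodule.span_induction with
    | mem x hx =>
      obtain ⟨j, rfl⟩ := hx
      have h1 := hg j (Finset.mem_range.2 j.2)
      rw [← lcm_res k g (a j) (hs j j.2)] at h1
      have h2 : h j = v ⟨gen a n k j, hmem j⟩ := dif_pos j.2
      rw [h2] at h1
      exact h1
    | zero =>
      rw [map_zero]
      exact (map_zero v).symm
    | add x y hx hy h1 h2 =>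
      rw [map_add, h1, h2, ← map_add]
      rfl
    | smul c x hx h1 =>
      rw [map_smul, h1, ← map_smul]
      rfl
  ext x
  exact key x.1 x.2

end CLS

/-- **CLS** -/
theorem t_CLS : S_CLS.{u} := by
  intro R _ I a ha
  refine ⟨{c | ∃ (i : I) (n k : ℕ), (∀ j < n, ∀ s, k ≤ s → a i j s = 0) ∧
    c = CLS.cell (a i) n k}, ?_, ?_⟩
  · rintro c ⟨i, n, k, hs, rfl⟩
    have hli := CLS.gen_li (ha i) hs
    exact Module.FinitePresentation.of_equiv (Module.Basis.span hli).repr.symm
  · intro M _ _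
    constructor
    · intro hc i F h
      obtain ⟨n, hn⟩ : ∃ n, ∀ t ∈ F, t < n := ⟨F.sup id + 1, fun t ht =>
        Nat.lt_succ_of_le (Finset.le_sup (f := id) ht)⟩
      obtain ⟨k, hk⟩ : ∃ k, ∀ j < n, ∀ s, k ≤ s → a i j s = 0 := by
        refine ⟨(Finset.range n).sup (fun j => (a i j).support.sup id + 1), fun j hj s hs => ?_⟩
        by_contra hne
        have h1 : s ≤ (a i j).support.sup id :=
          Finset.le_sup (f := id) (Finsupp.mem_support_iff.2 hne)
        have h2 : (a i j).support.sup id + 1 ≤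
            (Finset.range n).sup (fun j => (a i j).support.sup id + 1) :=
          Finset.le_sup (f := fun j => (a i j).support.sup id + 1) (Finset.mem_range.2 hj)
        omega
      obtain ⟨g, hg⟩ := CLS.to_solv (ha i) hk (fun v => hc _ ⟨i, n, k, hk, rfl⟩ v) h
      exact ⟨g, fun t ht => hg t (hn t ht)⟩
    · rintro hf c ⟨i, n, k, hs, rfl⟩ v
      exact CLS.to_cell hs (hf i) v

end Pool.Agent.K6.H47.TC
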