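import Pool.Agent.K6.H47.TC.Stm

/-!
# Piece EIL: the trick of Eilenberg
-/

set_option autoImplicit false

universe u

namespace Pool.Agent.K6.H47.TC

namespace EIL

variable {R : Type u} [Ring R]

/-- a surjection onto a projective module splits -/
lemma split {F K : Type u} [AddCommGroup F] [Module R F] [AddCommGroup K] [Module R K]
    [Module.Projective R K] (f : F →ₗ[R] K) (hf : Function.Surjective f) :
    Nonempty (F ≃ₗ[R] (K × LinearMap.ker f)) := by
  obtain ⟨s, hs⟩ := Module.projective_lifting_property f LinearMap.id hf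
  have hs' : ∀ x, f (s x) = x := fun x => LinearMap.congr_fun hs x
  refine ⟨LinearEquiv.ofLinearMap
    (f.prod (LinearMap.codRestrict (LinearMap.ker f) (LinearMap.id - s ∘ₗ f) ?_))
    (s.coprod (LinearMap.ker f).subtype) ?_ ?_⟩
  · intro x
    simp [hs']
  · refine LinearMap.ext fun x => ?_
    obtain ⟨x, y, hy⟩ := x
    rw [LinearMap.mem_ker] at hy
    refine Prod.ext ?_ (Subtype.ext ?_)
    · simp [hs', hy]
    · simp [hs', hy]
  · refine LinearMap.ext fun x => ?_
    simp

/-- finitely supported functions with values in a product -/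
noncomputable def fprod (X M N : Type*) [AddCommGroup M] [Module R M] [AddCommGroup N]
    [Module R N] : (X →₀ (M × N)) ≃ₗ[R] ((X →₀ M) × (X →₀ N)) :=
  LinearEquiv.ofLinearMap
    ((Finsupp.mapRange.linearMap (LinearMap.fst R M N)).prod
      (Finsupp.mapRange.linearMap (LinearMap.snd R M N)))
    ((Finsupp.mapRange.linearMap (LinearMap.inl R M N)).coprod
      (Finsupp.mapRange.linearMap (LinearMap.inr R M N)))
    (by
      refine LinearMap.ext fun x => ?_
      refine Prod.ext (Finsupp.ext fun i => ?_) (Finsupp.ext fun i => ?_)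
      · simp
      · simp)
    (by
      refine LinearMap.ext fun x => Finsupp.ext fun i => ?_
      refine Prod.ext ?_ ?_
      · simp
      · simp)

/-- one more summand -/
noncomputable def one (K : Type*) [AddCommGroup K] [Module R K] :
    ((ℕ →₀ K) × K) ≃ₗ[R] (ℕ →₀ K) :=
  ((LinearEquiv.refl R (ℕ →₀ K)).prodCongr (Finsupp.uniqueLinearEquiv R K PUnit.unit.{1}).symm)
    ≪≫ₗ (Finsupp.sumFinsuppLEquivProdFinsupp R).symm
    ≪≫ₗ Finsupp.domLCongr Equiv.natSumPUnitEquivNat

end EIL

open EIL in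
theorem t_EIL : S_EIL.{u} := by
  intro R _ K _ _ _ ha
  obtain ⟨a, ha⟩ := ha
  have hf : Function.Surjective (Finsupp.linearCombination R a) := by
    rw [← LinearMap.range_eq_top, Finsupp.range_linearCombination, ha]
  obtain ⟨e⟩ := split (Finsupp.linearCombination R a) hf
  have e2 : (ℕ →₀ R) ≃ₗ[R] ((ℕ →₀ K) × (ℕ →₀ LinearMap.ker (Finsupp.linearCombination R a))) :=
    (Finsupp.domLCongr Nat.pairEquiv).symm ≪≫ₗ Finsupp.curryLinearEquiv R ≪≫ₗ
      Finsupp.mapRange.linearEquiv e ≪≫ₗ
      fprod (R := R) ℕ K (LinearMap.ker (Finsupp.linearCombination R a))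
  exact ⟨((LinearEquiv.refl R K).prodCongr e2) ≪≫ₗ (LinearEquiv.prodAssoc R K (ℕ →₀ K) _).symm ≪≫ₗ
    (((LinearEquiv.prodComm R K (ℕ →₀ K)) ≪≫ₗ one K).prodCongr (LinearEquiv.refl R _)) ≪≫ₗ e2.symm⟩

end Pool.Agent.K6.H47.TC
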