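import Pool.Agent.K6.H47.TC.Stm
import Pool.Agent.K6.H47.TL.PEX0
import Pool.Agent.K6.H47.TL.PEXS
import Pool.Agent.K6.H47.TL.PEXF
import Pool.Agent.K6.H47.TL.PEXA
import Pool.Agent.K6.H47.TL.PADD

/-! # Piece GEN: direct sums of modules in the tilting class (helper70, for helper47) -/

set_option autoImplicit false

universe u

namespace Pool.Agent.K6.H47.TC

open Pool.Agent.K6.H47.TL

namespace GEN

theorem proj_ext (R : Type u) [Ring R] (N : Type u) [AddCommGroup N] [Module R N] :
    ∀ (i : ℕ) (M : Type u) [AddCommGroup M] [Module R M], Module.Projective R M →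
      ExtZ R i M N := by
  intro i
  induction i with
  | zero =>
    intro M _ _ hM
    refine (t_EX0 R M M N LinearMap.id Function.surjective_id).1.2 (fun v => ⟨0, ?_⟩)
    refine LinearMap.ext (fun x => ?_)
    have hx : x = 0 := Subtype.ext x.2
    rw [hx, map_zero, map_zero]
  | succ i ih =>
    intro M _ _ hM
    refine ((t_EX0 R M M N LinearMap.id Function.surjective_id).2 i).2 (ih _ ?_)
    have : Subsingleton (LinearMap.ker (LinearMap.id : M →ₗ[R] M)) := by
      rw [LinearMap.ker_id]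
      infer_instance
    have : Module.Free R (LinearMap.ker (LinearMap.id : M →ₗ[R] M)) :=
      Module.Free.of_subsingleton R _
    infer_instance

end GEN

theorem t_GEN : S_GEN.{u} := by
  intro R _ T _ _ hT
  have h1 : ∀ (i : ℕ) (N : Type u) [AddCommGroup N] [Module R N], ExtZ R (i + 1) T N := by
    intro i N _ _
    exact GEN.proj_ext R N i (Om R T) hT.pd
  refine ⟨fun i N _ _ => h1 i N, fun M _ _ hM => ?_⟩
  have hM' : ∀ i, ExtZ R i T M := by
    intro i
    cases i with
    | zero => exact hM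
    | succ i => exact h1 i M
  obtain ⟨T₀, _, _, f, hT₀, hf⟩ :=
    ADD.exists_env (t_EXF t_EX0) (t_EXA t_EX0) hM' 1 hT.cores
  have hs := ADD.ev_surj T f hT₀ hf
  let g : (ℕ × (T →ₗ[R] M) →₀ T) →ₗ[R] (ℕ →₀ M) :=
    (Finsupp.mapRange.linearMap (ADD.ev (R := R) T M)) ∘ₗ
      (Finsupp.finsuppProdLEquiv (α := ℕ) (β := T →ₗ[R] M) (M := T) R).toLinearMap
  have hg : Function.Surjective g := by
    have h2 : Function.Surjective
        (Finsupp.mapRange.linearMap (α := ℕ) (ADD.ev (R := R) T M)) := by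
      intro y
      obtain ⟨x, hx⟩ := Finsupp.mapRange_surjective (ADD.ev (R := R) T M) (map_zero _) hs y
      exact ⟨x, hx⟩
    exact h2.comp (LinearEquiv.surjective _)
  exact (t_EXS t_EX0 R T (ℕ × (T →ₗ[R] M) →₀ T) (ℕ →₀ M) g hg).1 0
    (hT.ext 0 (ℕ × (T →ₗ[R] M))) (h1 0 _)

end Pool.Agent.K6.H47.TC
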