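import Pool.Agent.K6.H47.TC.Stm

set_option autoImplicit false

universe u

namespace Pool.Agent.K6.H47.TC

namespace LS

variable {R : Type u} [Ring R] {M : Type u} [AddCommGroup M] [Module R M]

theorem lc_add (g g' : ℕ → M) (x : ℕ →₀ R) :
    Finsupp.linearCombination R (g + g') x =
      Finsupp.linearCombination R g x + Finsupp.linearCombination R g' x := by
  simp only [Finsupp.linearCombination_apply, Pi.add_apply, smul_add, Finsupp.sum_add]

theorem lc_sub (g g' : ℕ → M) (x : ℕ →₀ R) :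
    Finsupp.linearCombination R (g - g') x =
      Finsupp.linearCombination R g x - Finsupp.linearCombination R g' x := by
  have h := lc_add (g - g') g' x
  rw [sub_add_cancel] at h
  rw [h, add_sub_cancel_right]

theorem bound (x : ℕ →₀ R) : ∃ b : ℕ, ∀ s ∈ x.support, s < b :=
  ⟨x.support.sup id + 1, fun s hs => Nat.lt_succ_of_le (Finset.le_sup (f := id) hs)⟩

end LS

theorem t_LS : S_LS.{u} := by
  intro R _ a M _ _ hF hM h
  choose b hb using fun j => LS.bound (a j)
  choose mb hmb using hM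
  -- the two sequences
  obtain ⟨kk, hk0, hkS⟩ : ∃ kk : ℕ → ℕ, kk 0 = 0 ∧ ∀ i, kk (i + 1) = kk i + 1 + b i :=
    ⟨fun n => Nat.rec 0 (fun i r => r + 1 + b i) n, rfl, fun _ => rfl⟩
  have kmono : Monotone kk := monotone_nat_of_le_succ (fun i => by rw [hkS]; omega)
  have kid : ∀ i, i ≤ kk i := by
    intro i
    induction i with
    | zero => omega
    | succ n ih => rw [hkS]; omega
  obtain ⟨mm, hm0, hmS⟩ : ∃ mm : ℕ → ℕ, mm 0 = mb (kk 0) ∧
      ∀ i, mm (i + 1) = max (i + 1) (mb (kk (i + 1))) :=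
    ⟨fun n => Nat.casesOn n (mb (kk 0)) (fun i => max (i + 1) (mb (kk (i + 1)))), rfl, fun _ => rfl⟩
  have mid : ∀ i, i ≤ mm i := by
    intro i
    cases i with
    | zero => omega
    | succ n => rw [hmS]; exact le_max_left _ _
  have mge : ∀ i, mb (kk i) ≤ mm i := by
    intro i
    cases i with
    | zero => rw [hm0]
    | succ n => rw [hmS]; exact le_max_right _ _
  let T : ℕ → Type u := fun i =>
    {u : ℕ → M // ∀ j < mm i, Finsupp.linearCombination R u (a j) = h j}
  have step : ∀ (i : ℕ) (u : T i), ∃ u' : T (i + 1), ∀ s < kk i, u'.1 s = u.1 s := by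
    rintro i ⟨u, hu⟩
    obtain ⟨w, hw⟩ := hF (Finset.range (max (mm i) (mm (i + 1)))) h
    have hw' : ∀ j < max (mm i) (mm (i + 1)), Finsupp.linearCombination R w (a j) = h j :=
      fun j hj => hw j (Finset.mem_range.2 hj)
    obtain ⟨d, hd, hd'⟩ := hmb (kk i) (mm (i + 1)) (u - w) (fun j hj => by
      have hj' : j < mm i := lt_of_lt_of_le hj (mge i)
      rw [LS.lc_sub, hu j hj', hw' j (lt_of_lt_of_le hj' (le_max_left _ _)), sub_self])
    refine ⟨⟨w + d, fun j hj => ?_⟩, fun s hs => ?_⟩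
    · rw [LS.lc_add, hd j hj, hw' j (lt_of_lt_of_le hj (le_max_right _ _)), add_zero]
    · change w s + d s = u s
      rw [hd' s hs, Pi.sub_apply, add_sub_cancel]
  choose st hst using step
  obtain ⟨u0, hu0⟩ := hF (Finset.range (mm 0)) h
  let sq : ∀ i, T i := fun i => Nat.rec (motive := T) ⟨u0, fun j hj => hu0 j (Finset.mem_range.2 hj)⟩
    (fun i u => st i u) i
  have sqS : ∀ i, sq (i + 1) = st i (sq i) := fun _ => rfl
  have cons : ∀ (i n s : ℕ), s < kk i → (sq (i + n)).1 s = (sq i).1 s := by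
    intro i n s hs
    induction n with
    | zero => rfl
    | succ n ih =>
      rw [← ih, ← Nat.add_assoc, sqS]
      exact hst (i + n) (sq (i + n)) s (lt_of_lt_of_le hs (kmono (Nat.le_add_right i n)))
  have cons' : ∀ (i i' s : ℕ), s < kk i → s < kk i' → (sq i).1 s = (sq i').1 s := by
    intro i i' s hs hs'
    have h1 := cons i i' s hs
    have h2 := cons i' i s hs'
    rw [← h1, ← h2, Nat.add_comm]
  refine ⟨fun s => (sq (s + 1)).1 s, fun t => ?_⟩
  have h1 := (sq (t + 1)).2 t (lt_of_lt_of_le (Nat.lt_succ_self t) (mid (t + 1)))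
  rw [← h1, Finsupp.linearCombination_apply, Finsupp.linearCombination_apply]
  refine Finsupp.sum_congr (fun s hs => ?_)
  have hs1 : s < kk (t + 1) := by
    have := hb t s hs
    rw [hkS]; omega
  have hs2 : s < kk (s + 1) := lt_of_lt_of_le (Nat.lt_succ_self s) (kid (s + 1))
  rw [cons' (s + 1) (t + 1) s hs2 hs1]

end Pool.Agent.K6.H47.TC
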