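import Pool.Agent.K6.H47.TC.Stm

/-! Piece ML (helper48): the Mittag-Leffler condition. -/

set_option autoImplicit false

universe u

namespace Pool.Agent.K6.H47.TC

open Pool.Agent.K6.H47.TL

theorem t_ML : S_ML.{u} := by
  classical
  intro R _ a B _ _ hS
  by_contra hML
  unfold ML at hML
  push Not at hML
  obtain ⟨k, hk⟩ := hML
  choose l g hg hno using hk
  -- the right hand sides
  let h : ℕ → (ℕ →₀ B) := fun j => ∑ i ∈ Finset.range (j + 1),
    Finsupp.single i (Finsupp.linearCombination R (g i) (a j))
  have hh : ∀ j i, h j i = Finsupp.linearCombination R (g i) (a j) := by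
    intro j i
    change (∑ i' ∈ Finset.range (j + 1),
      Finsupp.single i' (Finsupp.linearCombination R (g i') (a j))) i = _
    rw [Finsupp.finsetSum_apply]
    by_cases hij : i < j + 1
    · rw [Finset.sum_eq_single i]
      · simp
      · intro b _ hb
        exact Finsupp.single_eq_of_ne (Ne.symm hb)
      · intro hn
        exact absurd (Finset.mem_range.mpr hij) hn
    · rw [hg i j (by omega)]
      apply Finset.sum_eq_zero
      intro b hb
      rw [Finset.mem_range] at hb
      exact Finsupp.single_eq_of_ne (by omega)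
  obtain ⟨x, hx⟩ := hS h
  have hxi : ∀ i j, Finsupp.linearCombination R (fun s => x s i) (a j) =
      Finsupp.linearCombination R (g i) (a j) := by
    intro i j
    rw [← hh, ← hx j]
    exact (Finsupp.apply_linearCombination R (Finsupp.lapply i : (ℕ →₀ B) →ₗ[R] B) x (a j)).symm
  -- a large index
  obtain ⟨i, hi⟩ : ∃ i, ∀ s < k, x s i = 0 := by
    obtain ⟨i, hi⟩ := Infinite.exists_notMem_finset
      ((Finset.range k).biUnion fun s => (x s).support)
    refine ⟨i, fun s hs => ?_⟩
    by_contra hne
    exact hi (Finset.mem_biUnion.mpr ⟨s, Finset.mem_range.mpr hs, Finsupp.mem_support_iff.mpr hne⟩)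
  obtain ⟨s, hs, hne⟩ := hno i (fun s => g i s - x s i) (by
    intro j _
    have h1 := hxi i j
    rw [Finsupp.linearCombination_apply, Finsupp.linearCombination_apply] at h1
    rw [Finsupp.linearCombination_apply]
    simp only [Finsupp.sum, smul_sub, Finset.sum_sub_distrib] at h1 ⊢
    rw [h1, sub_self])
  apply hne
  rw [hi s hs, sub_zero]

end Pool.Agent.K6.H47.TC
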