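import Pool.Agent.K6.H47.TC.Stm
import Pool.Agent.K6.H47.TL.PEX0
import Pool.Agent.K6.H47.TL.PEXA

set_option autoImplicit false

universe u

namespace Pool.Agent.K6.H47.TC

open Pool.Agent.K6.H47.TL

namespace PDK

variable {R : Type u} [Ring R]

/-- `Ext^1(K, -) = 0` if and only if `K` is projective -/
theorem proj_iff (K : Type u) [AddCommGroup K] [Module R K] : Module.Projective R K ↔
    ∀ (N : Type u) [AddCommGroup N] [Module R N], ExtZ R 0 K N := by
  constructor
  · intro h N _ _
    rw [(t_EX0 R K K N LinearMap.id Function.surjective_id).1]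
    intro v
    refine ⟨0, ?_⟩
    apply LinearMap.ext
    rintro ⟨x, hx⟩
    have hx0 : x = 0 := hx
    subst hx0
    exact (map_zero v).symm
  · intro h
    let c : (K →₀ R) →ₗ[R] K := Finsupp.linearCombination R (id : K → K)
    obtain ⟨g, hg⟩ := h (Om R K) LinearMap.id
    have hs : Function.Surjective c := EX0.lc_surj R K
    let r : (K →₀ R) →ₗ[R] (K →₀ R) := LinearMap.id - (LinearMap.ker c).subtype ∘ₗ g
    have hr : LinearMap.ker c ≤ LinearMap.ker r := by
      intro x hx
      have h1 : g x = ⟨x, hx⟩ := LinearMap.congr_fun hg ⟨x, hx⟩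
      show x - ((g x : LinearMap.ker c) : K →₀ R) = 0
      rw [h1, sub_self]
    let e : ((K →₀ R) ⧸ LinearMap.ker c) ≃ₗ[R] K := c.quotKerEquivOfSurjective hs
    let s : K →ₗ[R] (K →₀ R) := ((LinearMap.ker c).liftQ r hr) ∘ₗ e.symm.toLinearMap
    refine Module.Projective.of_split s c ?_
    apply LinearMap.ext
    intro y
    obtain ⟨x, rfl⟩ := hs y
    have h2 : e.symm (c x) = (LinearMap.ker c).mkQ x := by
      rw [LinearEquiv.symm_apply_eq]
      rfl
    show c (((LinearMap.ker c).liftQ r hr) (e.symm (c x))) = c x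
    rw [h2]
    show c (x - ((g x : LinearMap.ker c) : K →₀ R)) = c x
    have h3 : c ((g x : LinearMap.ker c) : K →₀ R) = 0 := (g x).2
    rw [map_sub, h3, sub_zero]

end PDK

theorem t_PDK : S_PDK.{u} := by
  intro R _ T P M _ _ _ _ _ _ _ f hT hM hf
  rw [PDK.proj_iff]
  intro N _ _
  rw [← (t_EX0 R P M N f hf).2 0]
  refine t_EXA t_EX0 R T M N hM 1 ?_
  have h1 : Module.Projective R (Om R T) := hT
  exact (PDK.proj_iff (Om R T)).1 h1 N

end Pool.Agent.K6.H47.TC
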