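import Pool.Agent.K6.H47.TC.Stm

/-!
# Piece PRE (helper36): presentations with independent relations
-/

set_option autoImplicit false

universe u

namespace Pool.Agent.K6.H47.TC

open Pool.Agent.K6.H47.TL

theorem t_PRE (h : S_EIL.{u}) : S_PRE.{u} := by
  intro R _ M _ _ f hf ⟨a, ha⟩ hp
  have hspan : Submodule.span R (Set.range fun n : ℕ => (Finsupp.single n 1 : ℕ →₀ R)) = ⊤ := by
    have h1 := (Finsupp.basisSingleOne (R := R) (ι := ℕ)).span_eq
    have h2 : (fun n : ℕ => (Finsupp.single n 1 : ℕ →₀ R)) =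
        ⇑(Finsupp.basisSingleOne (R := R) (ι := ℕ)) := by
      funext n
      rw [Finsupp.coe_basisSingleOne]
    rw [h2]
    exact h1
  have hmem : ∀ n, a n ∈ LinearMap.ker f := fun n => by
    rw [ha]
    exact Submodule.subset_span ⟨n, rfl⟩
  have hgen : Submodule.span R (Set.range fun n => (⟨a n, hmem n⟩ : LinearMap.ker f)) = ⊤ := by
    apply Submodule.map_injective_of_injective (f := (LinearMap.ker f).subtype)
      Subtype.val_injective
    rw [Submodule.map_span, Submodule.map_top, Submodule.range_subtype, ← Set.range_comp]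
    exact ha.symm
  obtain ⟨e1⟩ := h R (LinearMap.ker f) ⟨_, hgen⟩
  obtain ⟨e2⟩ := h R (ℕ →₀ R) ⟨_, hspan⟩
  obtain ⟨j, hj⟩ : ∃ j : (ℕ →₀ R) →ₗ[R] (ℕ →₀ R), ∀ y, j y =
      e2 (((e1.symm y).1 : ℕ →₀ R), (e1.symm y).2) :=
    ⟨e2.toLinearMap ∘ₗ ((LinearMap.ker f).subtype.prodMap LinearMap.id) ∘ₗ
      e1.symm.toLinearMap, fun y => rfl⟩
  obtain ⟨G, hG⟩ : ∃ G : (ℕ →₀ R) →ₗ[R] M, ∀ y, G y = f (e2.symm y).1 :=
    ⟨f ∘ₗ LinearMap.fst R _ _ ∘ₗ e2.symm.toLinearMap, fun y => rfl⟩
  have hGs : Function.Surjective G := by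
    intro m
    obtain ⟨x, hx⟩ := hf m
    refine ⟨e2 (x, 0), ?_⟩
    rw [hG, LinearEquiv.symm_apply_apply]
    exact hx
  have hjinj : LinearMap.ker j = ⊥ := by
    rw [LinearMap.ker_eq_bot]
    intro y y' hy
    rw [hj, hj] at hy
    have h1 := e2.injective hy
    have h2 := congrArg Prod.fst h1
    have h3 := congrArg Prod.snd h1
    apply e1.symm.injective
    exact Prod.ext (Subtype.ext h2) h3
  have hrange : LinearMap.range j = LinearMap.ker G := by
    ext y
    rw [LinearMap.mem_range, LinearMap.mem_ker, hG]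
    constructor
    · rintro ⟨z, rfl⟩
      rw [hj, LinearEquiv.symm_apply_apply]
      exact (e1.symm z).1.2
    · intro hy
      refine ⟨e1 (⟨(e2.symm y).1, hy⟩, (e2.symm y).2), ?_⟩
      rw [hj, LinearEquiv.symm_apply_apply]
      exact LinearEquiv.apply_symm_apply e2 y
  have hsp : Submodule.span R (Set.range fun n : ℕ => j (Finsupp.single n 1)) =
      LinearMap.ker G := by
    rw [← hrange, ← Submodule.map_top, ← hspan, Submodule.map_span, ← Set.range_comp]
    rfl
  refine ⟨fun n => j (Finsupp.single n 1), ?_, ⟨?_⟩⟩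
  · have h1 := (Finsupp.basisSingleOne (R := R) (ι := ℕ)).linearIndependent.map' j hjinj
    rw [Finsupp.coe_basisSingleOne] at h1
    exact h1
  · exact (LinearMap.quotKerEquivOfSurjective G hGs).symm.trans
      (Submodule.quotEquivOfEq _ _ hsp.symm)

end Pool.Agent.K6.H47.TC
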