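import Pool.Agent.K6.H47.TC.Stm

/-! # Direct sums of countably presented modules: piece SUM (helper27) -/

set_option autoImplicit false

universe u

namespace Pool.Agent.K6.H47.TC

open Pool.Agent.K6.H47.TL

namespace SUM

variable {R : Type u} [Ring R] {I : Type u} {T : I → Type u} [∀ i, AddCommGroup (T i)]
  [∀ i, Module R (T i)] {a : I → ℕ → (ℕ →₀ R)}
  (e : ∀ i, T i ≃ₗ[R] ((ℕ →₀ R) ⧸ Submodule.span R (Set.range (a i))))

open Classical in
/-- from the free module to the direct sum -/
noncomputable def F₀ : (I × ℕ →₀ R) →ₗ[R] (Π₀ i, T i) :=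
  Finsupp.linearCombination R fun x : I × ℕ =>
    (DFinsupp.single x.1 ((e x.1).symm (Submodule.Quotient.mk (Finsupp.single x.2 1))) :
      Π₀ i, T i)

open Classical in
theorem F₀_mapDomain (i : I) (v : ℕ →₀ R) :
    F₀ e (v.mapDomain fun s => (i, s)) =
      DFinsupp.single i ((e i).symm (Submodule.Quotient.mk v)) := by
  induction v using Finsupp.induction_linear with
  | zero =>
    rw [Finsupp.mapDomain_zero, map_zero, Submodule.Quotient.mk_zero, map_zero,
      DFinsupp.single_zero]
  | add f g hf hg =>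
    rw [Finsupp.mapDomain_add, map_add, hf, hg, Submodule.Quotient.mk_add, map_add,
      DFinsupp.single_add]
  | single s r =>
    rw [Finsupp.mapDomain_single, F₀, Finsupp.linearCombination_single, ← DFinsupp.single_smul,
      ← map_smul, ← Submodule.Quotient.mk_smul, Finsupp.smul_single, smul_eq_mul, mul_one]

theorem F₀_blk (x : I × ℕ) : F₀ e (blk a x) = 0 := by
  classical
  have h1 : F₀ e (blk a x) = DFinsupp.single x.1 ((e x.1).symm
      (Submodule.Quotient.mk (a x.1 x.2))) := F₀_mapDomain e x.1 (a x.1 x.2)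
  have h2 : (Submodule.Quotient.mk (a x.1 x.2) :
      (ℕ →₀ R) ⧸ Submodule.span R (Set.range (a x.1))) = 0 :=
    (Submodule.Quotient.mk_eq_zero _).2 (Submodule.subset_span ⟨x.2, rfl⟩)
  rw [h1, h2, map_zero, DFinsupp.single_zero]

/-- from the quotient to the direct sum -/
noncomputable def F : Qt (blk a) →ₗ[R] (Π₀ i, T i) :=
  Submodule.liftQ _ (F₀ e) (by
    rw [Submodule.span_le]
    rintro _ ⟨x, rfl⟩
    exact F₀_blk e x)

/-- from one summand to the quotient -/
noncomputable def G₀ (i : I) : T i →ₗ[R] Qt (blk a) :=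
  (Submodule.liftQ _ ((Submodule.mkQ (Submodule.span R (Set.range (blk a)))).comp
    (Finsupp.lmapDomain R R fun s => (i, s))) (by
    rw [Submodule.span_le]
    rintro _ ⟨j, rfl⟩
    show Submodule.mkQ _ (Finsupp.mapDomain (fun s => (i, s)) (a i j)) = 0
    rw [Submodule.mkQ_apply]
    exact (Submodule.Quotient.mk_eq_zero _).2 (Submodule.subset_span ⟨(i, j), rfl⟩))).comp
  (e i).toLinearMap

theorem G₀_mk (i : I) (v : ℕ →₀ R) : G₀ e i ((e i).symm (Submodule.Quotient.mk v)) =
    Submodule.Quotient.mk (v.mapDomain fun s => (i, s)) := by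
  unfold G₀
  rw [LinearMap.comp_apply]
  show Submodule.liftQ _ _ _ ((e i) ((e i).symm (Submodule.Quotient.mk v))) = _
  rw [LinearEquiv.apply_symm_apply]
  rfl

open Classical in
/-- from the direct sum to the quotient -/
noncomputable def G : (Π₀ i, T i) →ₗ[R] Qt (blk a) := DFinsupp.lsum ℕ (G₀ e)

theorem FG : (F e).comp (G e) = LinearMap.id := by
  classical
  refine DFinsupp.lhom_ext' fun i => ?_
  refine LinearMap.ext fun t => ?_
  obtain ⟨v, hv⟩ := Submodule.Quotient.mk_surjective _ (e i t)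
  have ht : t = (e i).symm (Submodule.Quotient.mk v) := by rw [hv, LinearEquiv.symm_apply_apply]
  show F e (G e (DFinsupp.single i t)) = DFinsupp.single i t
  rw [ht, G, DFinsupp.lsum_single, G₀_mk]
  exact F₀_mapDomain e i v

theorem GF : (G e).comp (F e) = LinearMap.id := by
  classical
  refine Submodule.linearMap_qext _ ?_
  refine Finsupp.lhom_ext fun x r => ?_
  show G e (F₀ e (Finsupp.single x r)) = Submodule.Quotient.mk (Finsupp.single x r)
  have h : Finsupp.single x r = (Finsupp.single x.2 r).mapDomain fun s => (x.1, s) := by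
    rw [Finsupp.mapDomain_single]
  rw [h, F₀_mapDomain, G, DFinsupp.lsum_single, G₀_mk]

end SUM

/-- Piece SUM. -/
theorem t_SUM : S_SUM.{u} := by
  intro R _ I T _ _ a h
  have e : ∀ i, T i ≃ₗ[R] ((ℕ →₀ R) ⧸ Submodule.span R (Set.range (a i))) :=
    fun i => (h i).some
  exact ⟨LinearEquiv.ofLinearMap (SUM.G e) (SUM.F e) (SUM.GF e) (SUM.FG e)⟩

end Pool.Agent.K6.H47.TC
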