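import Pool.Agent.K6.H47.TC.Stm
import Pool.Agent.K6.H47.TL.PEX0

/-!
# Piece SYS (helper36): `Ext` and linear systems
-/

set_option autoImplicit false

universe u

namespace Pool.Agent.K6.H47.TC

open Pool.Agent.K6.H47.TL

theorem t_SYS : S_SYS.{u} := by
  intro R _ J S A hA M _ _
  obtain ⟨W, hW⟩ : ∃ W, W = Submodule.span R (Set.range A) := ⟨_, rfl⟩
  have h0 := (t_EX0 R (S →₀ R) (Qt A) M (Submodule.mkQ (Submodule.span R (Set.range A)))
    (Submodule.mkQ_surjective _)).1
  rw [h0]
  have hker : LinearMap.ker (Submodule.mkQ (Submodule.span R (Set.range A))) =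
      Submodule.span R (Set.range A) := Submodule.ker_mkQ _
  rw [hker]
  have hmem : ∀ t, A t ∈ Submodule.span R (Set.range A) := fun t =>
    Submodule.subset_span ⟨t, rfl⟩
  constructor
  · intro h h'
    obtain ⟨b, hb⟩ : ∃ b : Module.Basis J R (Submodule.span R (Set.range A)),
        ∀ t, b t = ⟨A t, hmem t⟩ :=
      ⟨Module.Basis.span hA, fun t => Module.Basis.span_apply hA t⟩
    obtain ⟨g, hg⟩ := h (b.constr ℕ h')
    refine ⟨fun s => g (Finsupp.single s 1), fun t => ?_⟩
    have h1 : Finsupp.linearCombination R (fun s => g (Finsupp.single s 1)) = g := by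
      ext s
      simp
    rw [h1]
    have h2 : g (A t) = b.constr ℕ h' ⟨A t, hmem t⟩ := by
      rw [← hg]
      rfl
    rw [h2, ← hb t, Module.Basis.constr_basis]
  · intro h v
    obtain ⟨g, hg⟩ := h fun t => v ⟨A t, hmem t⟩
    refine ⟨Finsupp.linearCombination R g, ?_⟩
    apply LinearMap.ext
    rintro ⟨x, hx⟩
    show Finsupp.linearCombination R g x = v ⟨x, hx⟩
    induction hx using Submodule.span_induction with
    | mem x hx =>
      obtain ⟨t, rfl⟩ := hx
      exact hg t
    | zero =>
      rw [map_zero]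
      exact (map_zero v).symm
    | add x y hx hy h1 h2 =>
      rw [map_add, h1, h2, ← map_add]
      rfl
    | smul r x hx h1 =>
      rw [map_smul, h1, ← map_smul]
      rfl

end Pool.Agent.K6.H47.TC
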