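import Pool.Agent.K6.H47.TC.Asm
import Pool.Agent.K6.H47.TC.PML
import Pool.Agent.K6.H47.TC.PLS
import Pool.Agent.K6.H47.TC.PSYS
import Pool.Agent.K6.H47.TC.PGEN
import Pool.Agent.K6.H47.TC.PEIL
import Pool.Agent.K6.H47.TC.PPDK
import Pool.Agent.K6.H47.TC.PPRE
import Pool.Agent.K6.H47.TC.PSUM
import Pool.Agent.K6.H47.TC.PBLK
import Pool.Agent.K6.H47.TC.PCLS

/-!
# `1`-tilting modules of countable type: conclusion
-/

set_option autoImplicit false

universe u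

namespace Pool.Agent.K6.H47.TC

open Pool.Agent.K6.H47.TL

theorem cells_sum_all (R : Type u) [Ring R]
    (T : Type u) [AddCommGroup T] [Module R T] (hT : Tilting R 1 T) (I : Type u) (U : I → Type u)
    [∀ i, AddCommGroup (U i)] [∀ i, Module R (U i)] (hU : ∀ i, CountPres R (U i))
    (e : T ≃ₗ[R] (Π₀ i, U i)) : ∃ 𝒞 : Set (Cell R), (∀ c ∈ 𝒞, Module.FinitePresentation R c.K) ∧
      ∀ (M : Type u) [AddCommGroup M] [Module R M], (∀ i, ExtZ R i T M) ↔ CE 𝒞 M :=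
  cells_sum t_ML t_LS t_SYS t_GEN t_BLK t_PDK (t_PRE t_EIL) t_SUM t_CLS R T hT I U hU e

theorem cells_type_all (R : Type u) [Ring R]
    (T : Type u) [AddCommGroup T] [Module R T] (hT : Tilting R 1 T) (h : CountType R T) :
    ∃ 𝒞 : Set (Cell R), (∀ c ∈ 𝒞, Module.FinitePresentation R c.K) ∧
      ∀ (M : Type u) [AddCommGroup M] [Module R M], (∀ i, ExtZ R i T M) ↔ CE 𝒞 M :=
  cells_type t_ML t_LS t_SYS t_GEN t_BLK t_PDK (t_PRE t_EIL) t_SUM t_CLS R T hT h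

end Pool.Agent.K6.H47.TC
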