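import Pool.Agent.K6.H47.TC.Stm

/-!
# UNI: the universal extension with the systems solved
-/

set_option autoImplicit false

universe u

namespace Pool.Agent.K6.H47.TC

namespace UNI

variable {R : Type u} [Ring R] {J P : Type u} [AddCommGroup P] [Module R P] (A : J → P)
  (M : Type u) [AddCommGroup M] [Module R M]

/-- the relations -/
noncomputable def phi (x : (J → M) × J) : M × ((J → M) →₀ P) :=
  (- x.1 x.2, Finsupp.single x.1 (A x.2))

variable (R) in
/-- the span of the relations -/
noncomputable def W : Submodule R (M × ((J → M) →₀ P)) :=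
  Submodule.span R (Set.range (phi A M))

variable (R) in
/-- the extension -/
abbrev Bm : Type u :=
  (M × ((J → M) →₀ P)) ⧸ W R A M

variable (R) in
/-- the inclusion -/
noncomputable def jm : M →ₗ[R] Bm R A M :=
  (W R A M).mkQ ∘ₗ LinearMap.inl R M _

variable (R) in
/-- the projection before the quotient -/
noncomputable def p0 : (M × ((J → M) →₀ P)) →ₗ[R] ((J → M) →₀ (P ⧸ Submodule.span R (Set.range A))) :=
  Finsupp.mapRange.linearMap (Submodule.span R (Set.range A)).mkQ ∘ₗ LinearMap.snd R M _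

theorem W_le : W R A M ≤ LinearMap.ker (p0 R A M) := by
  classical
  rw [W, Submodule.span_le]
  rintro _ ⟨x, rfl⟩
  simp only [phi, p0, SetLike.mem_coe, LinearMap.mem_ker, LinearMap.comp_apply,
    LinearMap.snd_apply, Finsupp.mapRange.linearMap_apply, Finsupp.mapRange_single]
  have h : (Submodule.span R (Set.range A)).mkQ (A x.2) = 0 := by
    rw [Submodule.mkQ_apply, Submodule.Quotient.mk_eq_zero]
    exact Submodule.subset_span ⟨_, rfl⟩
  rw [h, Finsupp.single_zero]

variable (R) in
/-- the projection -/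
noncomputable def pm : Bm R A M →ₗ[R] ((J → M) →₀ (P ⧸ Submodule.span R (Set.range A))) :=
  (W R A M).liftQ (p0 R A M) (W_le A M)

theorem pm_surj : Function.Surjective (pm R A M) := by
  intro z
  obtain ⟨y, hy⟩ := Finsupp.mapRange_surjective (Submodule.span R (Set.range A)).mkQ (map_zero _)
    (Submodule.mkQ_surjective _) z
  refine ⟨(W R A M).mkQ (0, y), ?_⟩
  simp only [pm, Submodule.mkQ_apply, Submodule.liftQ_apply, p0, LinearMap.comp_apply,
    LinearMap.snd_apply, Finsupp.mapRange.linearMap_apply]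
  exact hy

theorem mem_map_snd (z : (J → M) →₀ P)
    (hz : ∀ h, z h ∈ Submodule.span R (Set.range A)) : ∃ m : M, (m, z) ∈ W R A M := by
  classical
  have h1 : z ∈ (W R A M).map (LinearMap.snd R M _) := by
    rw [← Finsupp.sum_single z]
    refine Submodule.sum_mem _ fun h _ => ?_
    have h2 : Submodule.span R (Set.range A) ≤
        ((W R A M).map (LinearMap.snd R M _)).comap (Finsupp.lsingle h) := by
      rw [Submodule.span_le]
      rintro _ ⟨t, rfl⟩
      exact ⟨phi A M (h, t), Submodule.subset_span ⟨_, rfl⟩, rfl⟩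
    exact h2 (hz h)
  obtain ⟨⟨m, z'⟩, h, h'⟩ := h1
  have h3 : z' = z := h'
  subst h3
  exact ⟨m, h⟩

theorem ker_pm : LinearMap.ker (pm R A M) = LinearMap.range (jm R A M) := by
  apply le_antisymm
  · intro b hb
    obtain ⟨⟨y, z⟩, rfl⟩ := Submodule.mkQ_surjective _ b
    have hz : ∀ h, z h ∈ Submodule.span R (Set.range A) := by
      intro h
      have h1 : p0 R A M (y, z) = 0 := by
        simpa [pm] using hb
      have h2 := DFunLike.congr_fun h1 h
      simp only [p0, LinearMap.comp_apply, LinearMap.snd_apply, Finsupp.mapRange.linearMap_apply,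
        Finsupp.mapRange_apply, Finsupp.coe_zero, Pi.zero_apply] at h2
      rwa [Submodule.mkQ_apply, Submodule.Quotient.mk_eq_zero] at h2
    obtain ⟨m, hm⟩ := mem_map_snd A M z hz
    refine ⟨y - m, ?_⟩
    simp only [jm, LinearMap.comp_apply, LinearMap.inl_apply, Submodule.mkQ_apply]
    rw [Submodule.Quotient.eq]
    have h1 : ((y - m, 0) : M × ((J → M) →₀ P)) - (y, z) = - (m, z) := by
      ext1 <;> simp
    rw [h1]
    exact Submodule.neg_mem _ hm
  · rintro _ ⟨m, rfl⟩
    simp [jm, pm, p0]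

theorem solve (h : J → M) :
    ∃ g : P →ₗ[R] Bm R A M, ∀ t, g (A t) = jm R A M (h t) := by
  classical
  refine ⟨(W R A M).mkQ ∘ₗ LinearMap.inr R M _ ∘ₗ (Finsupp.lsingle h), fun t => ?_⟩
  simp only [jm, LinearMap.comp_apply, LinearMap.inl_apply, LinearMap.inr_apply,
    Finsupp.lsingle_apply, Submodule.mkQ_apply]
  rw [Submodule.Quotient.eq]
  have h2 : ((0, Finsupp.single h (A t)) : M × ((J → M) →₀ P)) - (h t, 0) =
      phi A M (h, t) := by
    simp [phi]
  rw [h2]
  exact Submodule.subset_span ⟨_, rfl⟩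

theorem retr (hF : ∀ (F : Finset J) (h : J → M), ∃ γ : P →ₗ[R] M, ∀ t ∈ F, γ (A t) = h t)
    (a : ℕ → (ℕ →₀ R)) (k l : ℕ) (v : ℕ → Bm R A M) (g : ℕ → M)
    (hv : ∀ s < k, v s = jm R A M (g s))
    (h0 : ∀ t < l, Finsupp.linearCombination R v (a t) = 0) :
    ∃ v' : ℕ → M, (∀ s < k, v' s = g s) ∧
      ∀ t < l, Finsupp.linearCombination R v' (a t) = 0 := by
  classical
  have hlift : ∃ w : ℕ → M × ((J → M) →₀ P), (∀ s, (W R A M).mkQ (w s) = v s) ∧
      ∀ s < k, w s = (g s, 0) := by
    have h1 : ∀ s, ∃ x : M × ((J → M) →₀ P), (W R A M).mkQ x = v s ∧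
        (s < k → x = (g s, 0)) := by
      intro s
      by_cases hs : s < k
      · exact ⟨(g s, 0), by rw [hv s hs]; rfl, fun _ => rfl⟩
      · obtain ⟨x, hx⟩ := Submodule.mkQ_surjective _ (v s)
        exact ⟨x, hx, fun h => absurd h hs⟩
    choose w hw1 hw2 using h1
    exact ⟨w, hw1, hw2⟩
  obtain ⟨w, hw1, hw2⟩ := hlift
  have hmem : ∀ t, t < l → Finsupp.linearCombination R w (a t) ∈ W R A M := by
    intro t ht
    rw [← Submodule.Quotient.mk_eq_zero, ← Submodule.mkQ_apply,
      Finsupp.apply_linearCombination]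
    have : ((W R A M).mkQ ∘ w) = v := funext hw1
    rw [this]
    exact h0 t ht
  have hfs : ∀ t, ∃ c : ((J → M) × J) →₀ R, t < l →
      (c.sum fun i r => r • phi A M i) = Finsupp.linearCombination R w (a t) := by
    intro t
    by_cases ht : t < l
    · obtain ⟨c, hc⟩ := Finsupp.mem_span_range_iff_exists_finsupp.1 (hmem t ht)
      exact ⟨c, fun _ => hc⟩
    · exact ⟨0, fun h => absurd h ht⟩
  choose c hc using hfs
  set F : Finset J := (Finset.range l).biUnion fun t => (c t).support.image Prod.snd with hFdef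
  choose γ hγ using fun h : J → M => hF F h
  let ρ : (M × ((J → M) →₀ P)) →ₗ[R] M :=
    LinearMap.coprod LinearMap.id (Finsupp.lsum ℕ fun h : J → M => γ h)
  have hρ1 : ∀ y : M, ρ (y, 0) = y := by
    intro y
    simp [ρ]
  have hρ2 : ∀ x : (J → M) × J, x.2 ∈ F → ρ (phi A M x) = 0 := by
    intro x hx
    simp only [ρ, phi, LinearMap.coprod_apply, LinearMap.id_apply, Finsupp.lsum_single]
    rw [hγ x.1 x.2 hx]
    simp
  refine ⟨fun s => ρ (w s), fun s hs => ?_, fun t ht => ?_⟩
  · simp only [hw2 s hs, hρ1]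
  · have h1 : Finsupp.linearCombination R (fun s => ρ (w s)) (a t) =
        ρ (Finsupp.linearCombination R w (a t)) := by
      rw [Finsupp.apply_linearCombination]
      rfl
    rw [h1, ← hc t ht, Finsupp.sum, map_sum]
    refine Finset.sum_eq_zero fun i hi => ?_
    rw [map_smul, hρ2 i, smul_zero]
    rw [hFdef, Finset.mem_biUnion]
    exact ⟨t, Finset.mem_range.2 ht, Finset.mem_image_of_mem _ hi⟩

end UNI

theorem t_UNI : S_UNI.{u} := by
  intro R _ J S A M _ _ hF
  refine ⟨UNI.Bm R A M, inferInstance, inferInstance, UNI.jm R A M, UNI.pm R A M,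
    UNI.pm_surj A M, UNI.ker_pm A M, fun h => ?_, fun a k l v g hv h0 =>
      UNI.retr A M (fun F h => ?_) a k l v g hv h0⟩
  · obtain ⟨g, hg⟩ := UNI.solve (R := R) A M h
    refine ⟨fun s => g (Finsupp.single s 1), fun t => ?_⟩
    rw [← hg t]
    have h1 : Finsupp.linearCombination R (fun s => g (Finsupp.single s (1 : R))) = g :=
      Finsupp.lhom_ext' fun s => LinearMap.ext_ring (by simp)
    rw [h1]
  · obtain ⟨g, hg⟩ := hF F h
    exact ⟨Finsupp.linearCombination R g, hg⟩

end Pool.Agent.K6.H47.TC
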