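import Pool.Agent.K6.H47.TL.Stm

/-!
# Direct sums of countably presented modules: statements of the pieces

Linear systems: for `A : J → (S →₀ R)` and a module `M` the equations are `∑ s, A t s • g s = h t`
(`t : J`), i.e. `Finsupp.linearCombination R g (A t) = h t`, with unknown `g : S → M`.
-/

set_option autoImplicit false

universe u

namespace Pool.Agent.K6.H47.TC

open Pool.Agent.K6.H47.TL

section

variable {R : Type u} [Ring R] {J S : Type u}

/-- all systems with the matrix `A` are solvable in `M` -/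
def Solv {J S : Type*} (A : J → (S →₀ R)) (M : Type u) [AddCommGroup M] [Module R M] : Prop :=
  ∀ h : J → M, ∃ g : S → M, ∀ t, Finsupp.linearCombination R g (A t) = h t

/-- all finite subsystems are solvable in `M` -/
def FSolv {J S : Type*} (A : J → (S →₀ R)) (M : Type u) [AddCommGroup M] [Module R M] : Prop :=
  ∀ (F : Finset J) (h : J → M), ∃ g : S → M, ∀ t ∈ F, Finsupp.linearCombination R g (A t) = h t

/-- Mittag-Leffler condition for the homogeneous systems: for all `k` there is `m` such that the first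
`k` entries of a solution of the first `m` equations are those of solutions of the first `l`
equations, for all `l` -/
def ML (a : ℕ → (ℕ →₀ R)) (M : Type u) [AddCommGroup M] [Module R M] : Prop :=
  ∀ k : ℕ, ∃ m : ℕ, ∀ (l : ℕ) (g : ℕ → M), (∀ j < m, Finsupp.linearCombination R g (a j) = 0) →
    ∃ g' : ℕ → M, (∀ j < l, Finsupp.linearCombination R g' (a j) = 0) ∧ ∀ s < k, g' s = g s

/-- the module with the relations `A` -/
abbrev Qt (A : J → (S →₀ R)) : Type u := (S →₀ R) ⧸ Submodule.span R (Set.range A)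

/-- block diagonal matrix -/
noncomputable def blk {I : Type u} (a : I → ℕ → (ℕ →₀ R)) : I × ℕ → (I × ℕ →₀ R) :=
  fun x => (a x.1 x.2).mapDomain fun s => (x.1, s)

end

/-- ML: suppose not: for some `k` there are `m 0 < m 1 < ...` and `g i` solving the first `m i`
homogeneous equations such that no solution of the first `m (i+1)` equations agrees with `g i` on
`s < k`. Solve the system for the right hand sides `h j = ∑ i, single i (lc (g i) (a j))` (finite
sum: the `i`-th term is `0` if `j < m i`) by `x : ℕ → (ℕ →₀ B)`. Then `g i - (x · i)` solves all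
homogeneous equations, and `x s i = 0` for all `s < k` if `i` is large: contradiction. -/
def S_ML : Prop :=
  ∀ (R : Type u) [Ring R] (a : ℕ → (ℕ →₀ R)) (B : Type u) [AddCommGroup B] [Module R B],
    Solv a (ℕ →₀ B) → ML a B

/-- LS: choose `k 0 < k 1 < ...`, `m 0 ≤ m 1 ≤ ...` with `i ≤ m i`, `a j` supported in `[0, k i)` for
`j < i`, `m i` a bound for `k i` in `ML`. Construct solutions `u i` of the first `m i` equations
with `u (i+1) = u i` on `[0, k i)`: if `w` solves the first `m (i+1)` equations, then `u i - w`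
solves the first `m i` homogeneous ones; correct `w` by `ML`. Glue. -/
def S_LS : Prop :=
  ∀ (R : Type u) [Ring R] (a : ℕ → (ℕ →₀ R)) (M : Type u) [AddCommGroup M] [Module R M],
    FSolv a M → ML a M → Solv a M

/-- UNI: `B = (M × ((J → M) →₀ (S →₀ R))) ⧸ W` where `W` is spanned by the elements
`(- h t, single h (A t))` for `h : J → M`, `t : J`. (Last part:) lift `v` to `M × ...`, with
`v s ↦ (g s, 0)` for `s < k`; the finitely many elements `lc v (a t)` are in the span of finitely many
`(- h t, single h (A t))`, say with `t ∈ F`. By `FSolv` choose `g h : S → M` with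
`lc (g h) (A t) = h t` for `t ∈ F`. The map `(y, z) ↦ y + ∑ h, lc (g h) (z h)` kills these, and it is the
identity on `M`. Apply it. -/
def S_UNI : Prop :=
  ∀ (R : Type u) [Ring R] (J S : Type u) (A : J → (S →₀ R)) (M : Type u) [AddCommGroup M]
    [Module R M], FSolv A M →
    ∃ (B : Type u) (_ : AddCommGroup B) (_ : Module R B) (j : M →ₗ[R] B)
      (p : B →ₗ[R] ((J → M) →₀ Qt A)), Function.Surjective p ∧
      LinearMap.ker p = LinearMap.range j ∧
      (∀ h : J → M, ∃ g : S → B, ∀ t, Finsupp.linearCombination R g (A t) = j (h t)) ∧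
      ∀ (a : ℕ → (ℕ →₀ R)) (k l : ℕ) (v : ℕ → B) (g : ℕ → M), (∀ s < k, v s = j (g s)) →
        (∀ t < l, Finsupp.linearCombination R v (a t) = 0) →
        ∃ v' : ℕ → M, (∀ s < k, v' s = g s) ∧ ∀ t < l, Finsupp.linearCombination R v' (a t) = 0

/-- SYS: use `t_EX0` (file `TL/PEX0.lean`) with `P = S →₀ R` and `f = mkQ`; `A` is a basis of
`span (range A)`. -/
def S_SYS : Prop :=
  ∀ (R : Type u) [Ring R] (J S : Type u) (A : J → (S →₀ R)), LinearIndependent R A →
    ∀ (M : Type u) [AddCommGroup M] [Module R M], ExtZ R 0 (Qt A) M ↔ Solv A M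

/-- GEN: first part: `Om R T` is projective, `t_EX0`. Second part: as in `TL/PADD.lean` the map
`ev T M : ((T →ₗ M) →₀ T) → M` is surjective (`ADD.exists_env`, `ADD.ev_surj`); so there is a surjection
`(X →₀ T) → (ℕ →₀ M)`; use `S_EXS` (`t_EXS t_EX0`), first part, and `hT.ext`. -/
def S_GEN : Prop :=
  ∀ (R : Type u) [Ring R] (T : Type u) [AddCommGroup T] [Module R T], Tilting R 1 T →
    (∀ (i : ℕ) (N : Type u) [AddCommGroup N] [Module R N], ExtZ R (i + 1) T N) ∧
    ∀ (M : Type u) [AddCommGroup M] [Module R M], ExtZ R 0 T M → ExtZ R 0 T (ℕ →₀ M)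

/-- EIL (Eilenberg): `K × K' ≃ (ℕ →₀ R)`, so `K × (ℕ →₀ (K' × K)) ≃ (ℕ →₀ (K × K'))`. -/
def S_EIL : Prop :=
  ∀ (R : Type u) [Ring R] (K : Type u) [AddCommGroup K] [Module R K] [Module.Projective R K],
    (∃ a : ℕ → K, Submodule.span R (Set.range a) = ⊤) →
    Nonempty ((K × (ℕ →₀ R)) ≃ₗ[R] (ℕ →₀ R))

/-- PDK: `ExtZ 1 T N` for all `N` (as `Om R T` is projective), so `ExtZ 1 M N` by `t_EXA t_EX0`, so
`ExtZ 0 (ker f) N` for all `N` by `t_EX0`; with `N = Om R (ker f)` the free cover of `ker f` splits. -/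
def S_PDK : Prop :=
  ∀ (R : Type u) [Ring R] (T P M : Type u) [AddCommGroup T] [Module R T] [AddCommGroup P]
    [Module R P] [AddCommGroup M] [Module R M] [Module.Projective R P] (f : P →ₗ[R] M),
    PdLE R 1 T → AddT R T M → Function.Surjective f → Module.Projective R (LinearMap.ker f)

/-- PRE: the kernel of `(ℕ →₀ R) × (ℕ →₀ R) → M`, `(x, y) ↦ f x`, is `ker f × (ℕ →₀ R) ≃ (ℕ →₀ R)`. -/
def S_PRE : Prop :=
  ∀ (R : Type u) [Ring R] (M : Type u) [AddCommGroup M] [Module R M] (f : (ℕ →₀ R) →ₗ[R] M),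
    Function.Surjective f → (∃ a : ℕ → (ℕ →₀ R), LinearMap.ker f = Submodule.span R (Set.range a)) →
    Module.Projective R (LinearMap.ker f) →
    ∃ a : ℕ → (ℕ →₀ R), LinearIndependent R a ∧
      Nonempty (M ≃ₗ[R] ((ℕ →₀ R) ⧸ Submodule.span R (Set.range a)))

/-- SUM: direct sum of presentations -/
def S_SUM : Prop :=
  ∀ (R : Type u) [Ring R] (I : Type u) (T : I → Type u) [∀ i, AddCommGroup (T i)]
    [∀ i, Module R (T i)] (a : I → ℕ → (ℕ →₀ R)),
    (∀ i, Nonempty (T i ≃ₗ[R] ((ℕ →₀ R) ⧸ Submodule.span R (Set.range (a i))))) →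
    Nonempty ((Π₀ i, T i) ≃ₗ[R] Qt (blk a))

/-- BLK: systems with a block diagonal matrix -/
def S_BLK : Prop :=
  ∀ (R : Type u) [Ring R] (I : Type u) (a : I → ℕ → (ℕ →₀ R)),
    ((∀ i, LinearIndependent R (a i)) → LinearIndependent R (blk a)) ∧
    ∀ (M : Type u) [AddCommGroup M] [Module R M], (Solv (blk a) M ↔ ∀ i, Solv (a i) M) ∧
      (FSolv (blk a) M ↔ ∀ i, FSolv (a i) M)

/-- CLS: the cells are: `i : I`, `n k : ℕ` with `a i j` supported in `[0, k)` for `j < n`, and `K` is the
span of the restrictions of `a i j` to `Fin k`, `j < n`; these are linearly independent, so `K` is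
free of rank `n`. -/
def S_CLS : Prop :=
  ∀ (R : Type u) [Ring R] (I : Type u) (a : I → ℕ → (ℕ →₀ R)), (∀ i, LinearIndependent R (a i)) →
    ∃ 𝒞 : Set (Cell R), (∀ c ∈ 𝒞, Module.FinitePresentation R c.K) ∧
      ∀ (M : Type u) [AddCommGroup M] [Module R M], CE 𝒞 M ↔ ∀ i, FSolv (a i) M

end Pool.Agent.K6.H47.TC
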